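import Mathlib
import Pool.Agent.U191.AC.Closed

/-!
# MP_1f2de8_an, Q1: the coefficient problem for `α`-convex functions, `0 < α < 1`, all `n ≥ 2`

`A_n(α)` is the coefficient of `z^(n-1)` in `(∑_{k ≥ 0} B_k z^k)^α`, where
`B_k = (2/α)(2/α+1)⋯(2/α+k-1) / (k! (1+αk))`, i.e. the `n`-th coefficient of
`k_α(z) = [(1/α) ∫_0^z t^(1/α-1) (1-t)^(-2/α) dt]^α`; one function is extremal for all `n`.
-/

set_option autoImplicit false

open Metric PowerSeries Pool.Agent.H.MP_7a60ac_an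

namespace Pool.Agent.Results.MP_1f2de8_an.CoefficientProblem

/-- The class `M(α)`: `f` is analytic and univalent in the unit disc, `f(0) = 0`, `f'(0) = 1` and
`Re[α(1 + z f''(z)/f'(z)) + (1-α) z f'(z)/f(z)] > 0` for `0 < |z| < 1` (at `z = 0` the bracket has
the removable value `1`). -/
def M (α : ℝ) : Set (ℂ → ℂ) :=
  {f | DifferentiableOn ℂ f (ball 0 1) ∧ Set.InjOn f (ball 0 1) ∧ f 0 = 0 ∧ deriv f 0 = 1 ∧
    ∀ z ∈ ball (0 : ℂ) 1, z ≠ 0 →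
      0 < ((α : ℂ) * (1 + z * deriv (deriv f) z / deriv f z) +
        (1 - (α : ℂ)) * (z * deriv f z / f z)).re}

/-- The `n`-th Taylor coefficient at `0`. -/
noncomputable def a (f : ℂ → ℂ) (n : ℕ) : ℂ := iteratedDeriv n f 0 / (n.factorial : ℂ)

/-- `A_n(α) = sup {|a_n| : f ∈ M(α)}`. -/
noncomputable def A (n : ℕ) (α : ℝ) : ℝ := sSup {x : ℝ | ∃ f ∈ M α, x = ‖a f n‖}

/-- `B_k = (2/α)(2/α+1)⋯(2/α+k-1) / (k! (1+αk))`. -/
noncomputable def B (α : ℝ) (k : ℕ) : ℝ := (∏ i ∈ Finset.range k, ((2 / α + i) / (i + 1))) / (1 + α * k)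

theorem mem_iff {α : ℝ} {f : ℂ → ℂ} : f ∈ M α ↔ Pool.Agent.U191.AC.IsMocanu α f :=
  ⟨fun h => ⟨h.1, h.2.1, h.2.2.1, h.2.2.2.1, h.2.2.2.2⟩, fun h => ⟨h.1, h.2, h.3, h.4, h.5⟩⟩

/-- For `0 < α < 1` there are numbers `b_1 = 1, b_2, …` given by the explicit recursion (the
coefficients of `z (∑ B_k z^k)^α`), also given by the closed finite formula (binomial series), such
that for all `n ≥ 2` the supremum `A_n(α)` equals `b_n`, is attained, and one function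
`f ∈ M(α)` has `a_n = b_n` for all `n ≥ 1`. -/
theorem result (α : ℝ) (h0 : 0 < α) (h1 : α < 1) :
    ∃ b : ℕ → ℝ, b 1 = 1 ∧
      (∀ n : ℕ, 1 ≤ n → (n : ℝ) * b (n + 1) =
        ∑ i ∈ Finset.range n, (α * ((n : ℝ) - i) - i) * B α (n - i) * b (i + 1)) ∧
      (∀ n : ℕ, 1 ≤ n → b n = ∑ j ∈ Finset.range n,
        (∏ i ∈ Finset.range j, (α - i)) / (j.factorial : ℝ) *
          coeff (n - 1) ((PowerSeries.mk (B α) - 1) ^ j)) ∧
      (∀ n : ℕ, 2 ≤ n → A n α = b n) ∧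
      (∀ f ∈ M α, ∀ n : ℕ, 1 ≤ n → ‖a f n‖ ≤ b n) ∧
      ∃ f ∈ M α, ∀ n : ℕ, 1 ≤ n → a f n = (b n : ℂ) := by
  have up : ∀ f ∈ M α, ∀ n : ℕ, 1 ≤ n → ‖a f n‖ ≤ Pool.Agent.U191.AC.b α (n - 1) := fun f hf n hn => by
    obtain ⟨m, rfl⟩ : ∃ m, n = m + 1 := ⟨n - 1, by omega⟩
    exact Pool.Agent.U191.AC.upper h0 h1 (mem_iff.1 hf) m
  obtain ⟨f, hf, hc⟩ := Pool.Agent.U191.AC.extremal h0 h1
  have ex : ∀ n : ℕ, 1 ≤ n → a f n = ((Pool.Agent.U191.AC.b α (n - 1) : ℝ) : ℂ) := fun n hn => by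
    obtain ⟨m, rfl⟩ : ∃ m, n = m + 1 := ⟨n - 1, by omega⟩
    exact hc m
  refine ⟨fun n => Pool.Agent.U191.AC.b α (n - 1), by simp [Pool.Agent.U191.AC.b], fun n hn => ?_,
    fun n hn => ?_, fun n hn => ?_, up, f, mem_iff.2 hf, ex⟩
  · obtain ⟨m, rfl⟩ : ∃ m, n = m + 1 := ⟨n - 1, by omega⟩
    simp only [Nat.add_sub_cancel]
    rw [Pool.Agent.U191.AC.b, Nat.cast_add, Nat.cast_one, mul_div_cancel₀ _ (by positivity),
      Fin.sum_univ_eq_sum_range (fun i => (α * ((m : ℝ) + 1 - i) - i) *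
      Pool.Agent.U191.AC.B α (m + 1 - i) * Pool.Agent.U191.AC.b α i) (m + 1)]
    rfl
  · obtain ⟨m, rfl⟩ : ∃ m, n = m + 1 := ⟨n - 1, by omega⟩
    exact Pool.Agent.U191.AC.b_closed h0 m
  · have hn1 : 1 ≤ n := by omega
    have nn : ‖a f n‖ = Pool.Agent.U191.AC.b α (n - 1) := by
      refine le_antisymm (up f (mem_iff.2 hf) n hn1) ?_
      rw [ex n hn1, Complex.norm_real]
      exact Real.le_norm_self _
    refine IsGreatest.csSup_eq (a := Pool.Agent.U191.AC.b α (n - 1)) ⟨⟨f, mem_iff.2 hf, nn.symm⟩, ?_⟩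
    rintro x ⟨g, hg, rfl⟩
    exact up g hg n hn1

end Pool.Agent.Results.MP_1f2de8_an.CoefficientProblem
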